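import Mathlib

/-!
MP_a862e4_co (p-schemes), helper46.  Linear p-schemes in graphs whose degeneracy is at most C times the
chromatic number: essential Kempe components.
-/

namespace PSch46

open SimpleGraph

variable {V : Type*} (G : SimpleGraph V)

/-- `S` can be properly coloured with the colours `0, …, m-1` -/
def Col (S : Set V) (m : ℕ) : Prop :=
  ∃ c : V → ℕ, (∀ x ∈ S, c x < m) ∧ ∀ x ∈ S, ∀ y ∈ S, G.Adj x y → c x ≠ c y

/-- vertices of `W` with colour in `I` -/
def cls (W : Set V) (c : V → ℕ) (I : Finset ℕ) : Set V := {x | x ∈ W ∧ c x ∈ I}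

/-- the subgraph spanned by the colour classes in `I` -/
def GI (W : Set V) (c : V → ℕ) (I : Finset ℕ) : SimpleGraph V where
  Adj x y := G.Adj x y ∧ x ∈ cls W c I ∧ y ∈ cls W c I
  symm := ⟨fun _ _ h => ⟨h.1.symm, h.2.2, h.2.1⟩⟩
  loopless := ⟨fun x h => G.loopless.irrefl x h.1⟩

/-- component of `x` -/
def cmp (W : Set V) (c : V → ℕ) (I : Finset ℕ) (x : V) : Set V :=
  ((GI G W c I).connectedComponentMk x).supp

/-- essential components -/
def Ess (v : V) (W : Set V) (c : V → ℕ) (I : Finset ℕ) : Set (Set V) :=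
  {K | (∃ x ∈ cls W c I, K = cmp G W c I x) ∧ ¬ Col G (insert v K) I.card}

variable {G} {W : Set V} {c : V → ℕ} {I J : Finset ℕ} {v x y z : V}

theorem mem_cmp : y ∈ cmp G W c I x ↔ (GI G W c I).Reachable y x := by
  unfold cmp
  rw [ConnectedComponent.mem_supp_iff, ConnectedComponent.eq]

theorem self_mem_cmp : x ∈ cmp G W c I x := mem_cmp.2 (Reachable.refl _)

theorem cmp_eq_of_mem (h : y ∈ cmp G W c I x) : cmp G W c I y = cmp G W c I x := by
  have h1 : (GI G W c I).connectedComponentMk y = (GI G W c I).connectedComponentMk x :=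
    ConnectedComponent.sound (mem_cmp.1 h)
  unfold cmp
  rw [h1]

theorem cmp_sub (hx : x ∈ cls W c I) : cmp G W c I x ⊆ cls W c I := by
  intro y hy
  have h := mem_cmp.1 hy
  by_cases hyx : y = x
  · rw [hyx]; exact hx
  · obtain ⟨w⟩ := h
    cases w with
    | nil => exact absurd rfl hyx
    | cons hadj _ => exact hadj.2.1

theorem cls_mono (h : I ⊆ J) : cls W c I ⊆ cls W c J := fun _ hx => ⟨hx.1, h hx.2⟩

theorem GI_mono (h : I ⊆ J) : GI G W c I ≤ GI G W c J := by
  intro x y hxy
  exact ⟨hxy.1, cls_mono h hxy.2.1, cls_mono h hxy.2.2⟩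

theorem cmp_mono (h : I ⊆ J) : cmp G W c I x ⊆ cmp G W c J x := by
  intro y hy
  exact mem_cmp.2 ((mem_cmp.1 hy).mono (GI_mono h))

theorem mem_cmp_of_adj (hy : y ∈ cmp G W c I x) (hyI : y ∈ cls W c I) (hz : z ∈ cls W c I)
    (h : G.Adj y z) : z ∈ cmp G W c I x := by
  have h1 : (GI G W c I).Adj z y := ⟨h.symm, hz, hyI⟩
  exact mem_cmp.2 (h1.reachable.trans (mem_cmp.1 hy))

theorem ess_sub {K : Set V} (h : K ∈ Ess G v W c I) : K ⊆ cls W c I := by
  obtain ⟨⟨x, hx, rfl⟩, _⟩ := h
  exact cmp_sub hx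

theorem ess_nonempty {K : Set V} (h : K ∈ Ess G v W c I) : K.Nonempty := by
  obtain ⟨⟨x, hx, rfl⟩, _⟩ := h
  exact ⟨x, self_mem_cmp⟩

theorem ess_eq_cmp {K : Set V} (h : K ∈ Ess G v W c I) (hx : x ∈ K) : K = cmp G W c I x := by
  obtain ⟨⟨y, hy, rfl⟩, _⟩ := h
  exact (cmp_eq_of_mem hx).symm

theorem ess_eq_of_inter {K K' : Set V} (h : K ∈ Ess G v W c I) (h' : K' ∈ Ess G v W c I)
    (hx : x ∈ K) (hx' : x ∈ K') : K = K' := by
  rw [ess_eq_cmp h hx, ess_eq_cmp h' hx']

/-- swap colours so that `v` has colour 0 -/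
theorem Col.zero {S : Set V} {m : ℕ} (h : Col G S m) (hm : 0 < m) (hv : v ∈ S) :
    ∃ c : V → ℕ, c v = 0 ∧ (∀ x ∈ S, c x < m) ∧ ∀ x ∈ S, ∀ y ∈ S, G.Adj x y → c x ≠ c y := by
  obtain ⟨c, h1, h2⟩ := h
  refine ⟨fun x => Equiv.swap (c v) 0 (c x), by simp, ?_, ?_⟩
  · intro x hx
    have hx1 := h1 x hx
    have hv1 := h1 v hv
    simp only [Equiv.swap_apply_def]
    split_ifs <;> omega
  · intro x hx y hy hxy heq
    exact h2 x hx y hy hxy ((Equiv.swap (c v) 0).injective heq)

/-- rank of a colour in a finite set of colours -/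
def rk (I : Finset ℕ) (i : ℕ) : ℕ := (I.filter (fun j => j < i)).card

theorem rk_lt_card {i : ℕ} (hi : i ∈ I) : rk I i < I.card := by
  apply Finset.card_lt_card
  rw [Finset.ssubset_iff_of_subset (Finset.filter_subset _ _)]
  exact ⟨i, hi, by simp⟩

theorem rk_lt {i j : ℕ} (hi : i ∈ I) (hij : i < j) : rk I i < rk I j := by
  apply Finset.card_lt_card
  rw [Finset.ssubset_iff_of_subset]
  · exact ⟨i, Finset.mem_filter.2 ⟨hi, hij⟩, by simp⟩
  · intro l hl
    rw [Finset.mem_filter] at hl ⊢
    exact ⟨hl.1, by omega⟩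

theorem rk_ne {i j : ℕ} (hi : i ∈ I) (hj : j ∈ I) (h : i ≠ j) : rk I i ≠ rk I j := by
  rcases Nat.lt_or_gt_of_ne h with h1 | h1
  · exact (rk_lt hi h1).ne
  · exact (rk_lt hj h1).ne'

/-- Gluing. -/
theorem glue (hvW : v ∉ W) (hI : 0 < I.card) {U : Set V} (hU : U ⊆ cls W c I)
    (h : ∀ x ∈ U, Col G (insert v (cmp G W c I x)) I.card) : Col G (insert v U) I.card := by
  classical
  have h' : ∀ K : Set V, ∃ f : V → ℕ, Col G (insert v K) I.card → (f v = 0 ∧
      (∀ x ∈ insert v K, f x < I.card) ∧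
      ∀ x ∈ insert v K, ∀ y ∈ insert v K, G.Adj x y → f x ≠ f y) := by
    intro K
    by_cases hK : Col G (insert v K) I.card
    · obtain ⟨f, hf⟩ := hK.zero hI (Set.mem_insert v K)
      exact ⟨f, fun _ => hf⟩
    · exact ⟨fun _ => 0, fun h => absurd h hK⟩
  choose F hF using h'
  have hvU : v ∉ U := fun hv => hvW (hU hv).1
  refine ⟨fun y => if y = v then 0 else F (cmp G W c I y) y, ?_, ?_⟩
  · intro y hy
    by_cases hyv : y = v
    · simp only [hyv, if_true]; exact hI
    · simp only [hyv, if_false]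
      have hyU : y ∈ U := by
        rcases hy with h | h
        · exact absurd h hyv
        · exact h
      exact (hF _ (h y hyU)).2.1 y (Set.mem_insert_of_mem _ self_mem_cmp)
  · intro y hy z hz hyz
    by_cases hyv : y = v
    · by_cases hzv : z = v
      · rw [hyv, hzv] at hyz
        exact absurd hyz (G.loopless.irrefl v)
      · have hzU : z ∈ U := by
          rcases hz with h | h
          · exact absurd h hzv
          · exact h
        simp only [hyv, if_true, hzv, if_false]
        have h1 := hF _ (h z hzU)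
        have h2 := h1.2.2 v (Set.mem_insert _ _) z (Set.mem_insert_of_mem _ self_mem_cmp) (hyv ▸ hyz)
        rw [h1.1] at h2
        exact h2
    · have hyU : y ∈ U := by
        rcases hy with h | h
        · exact absurd h hyv
        · exact h
      by_cases hzv : z = v
      · simp only [hyv, if_false, hzv, if_true]
        have h1 := hF _ (h y hyU)
        have h2 := h1.2.2 y (Set.mem_insert_of_mem _ self_mem_cmp) v (Set.mem_insert _ _) (hzv ▸ hyz)
        rw [h1.1] at h2
        exact h2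
      · have hzU : z ∈ U := by
          rcases hz with h | h
          · exact absurd h hzv
          · exact h
        simp only [hyv, if_false, hzv]
        have hzc : z ∈ cmp G W c I y := mem_cmp_of_adj self_mem_cmp (hU hyU) (hU hzU) hyz
        rw [cmp_eq_of_mem hzc]
        exact (hF _ (h y hyU)).2.2 y (Set.mem_insert_of_mem _ self_mem_cmp) z
          (Set.mem_insert_of_mem _ hzc) hyz

/-- Splitting off the colours `I`. -/
theorem split (hvW : v ∉ W) (hc : ∀ x ∈ W, ∀ y ∈ W, G.Adj x y → c x ≠ c y) (hIJ : I ⊆ J)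
    (hI : I.Nonempty) {X : Set V} (hX : X ⊆ cls W c J)
    (hcl : ∀ x ∈ X, x ∈ cls W c I → cmp G W c I x ⊆ X)
    (h : ¬ Col G (insert v X) J.card) :
    ∃ K ∈ Ess G v W c I, K ⊆ X := by
  classical
  by_contra hcon
  push Not at hcon
  have hI' : 0 < I.card := Finset.card_pos.2 hI
  set U := X ∩ cls W c I with hU
  have hUcol : Col G (insert v U) I.card := by
    apply glue hvW hI' (Set.inter_subset_right)
    intro x hx
    by_contra hnc
    exact hcon _ ⟨⟨x, hx.2, rfl⟩, hnc⟩ (hcl x hx.1 hx.2)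
  obtain ⟨f, hf1, hf2⟩ := hUcol
  apply h
  have hcard : I.card + (J \ I).card = J.card := by
    rw [Finset.card_sdiff_of_subset hIJ]
    have := Finset.card_le_card hIJ
    omega
  have hdiff : ∀ y ∈ insert v X, y ∉ insert v U → y ∈ W ∧ c y ∈ J \ I := by
    intro y hy hyU
    have hyX : y ∈ X := by
      rcases hy with h | h
      · exact absurd (Or.inl h) hyU
      · exact h
    refine ⟨(hX hyX).1, ?_⟩
    rw [Finset.mem_sdiff]
    refine ⟨(hX hyX).2, fun hyI => hyU (Or.inr ⟨hyX, (hX hyX).1, hyI⟩)⟩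
  refine ⟨fun y => if y ∈ insert v U then f y else I.card + rk (J \ I) (c y), ?_, ?_⟩
  · intro y hy
    by_cases hyU : y ∈ insert v U
    · simp only [hyU, if_true]
      have := hf1 y hyU
      omega
    · simp only [hyU, if_false]
      have := rk_lt_card (hdiff y hy hyU).2
      omega
  · intro y hy z hz hyz
    by_cases hyU : y ∈ insert v U
    · by_cases hzU : z ∈ insert v U
      · simp only [hyU, hzU, if_true]
        exact hf2 y hyU z hzU hyz
      · simp only [hyU, hzU, if_true, if_false]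
        have := hf1 y hyU
        omega
    · by_cases hzU : z ∈ insert v U
      · simp only [hyU, hzU, if_true, if_false]
        have := hf1 z hzU
        omega
      · simp only [hyU, hzU, if_false]
        have h1 := hdiff y hy hyU
        have h2 := hdiff z hz hzU
        have h3 := rk_ne h1.2 h2.2 (hc y h1.1 z h2.1 hyz)
        omega

theorem ess_exists_sub (hvW : v ∉ W) (hc : ∀ x ∈ W, ∀ y ∈ W, G.Adj x y → c x ≠ c y) (hIJ : I ⊆ J)
    (hI : I.Nonempty) {K : Set V} (hK : K ∈ Ess G v W c J) : ∃ K' ∈ Ess G v W c I, K' ⊆ K := by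
  apply split hvW hc hIJ hI (ess_sub hK) _ hK.2
  intro x hx _
  rw [ess_eq_cmp hK hx]
  exact cmp_mono hIJ

theorem ess_exists_of_not_col (hvW : v ∉ W) (hc : ∀ x ∈ W, ∀ y ∈ W, G.Adj x y → c x ≠ c y)
    {k : ℕ} (hk : ∀ x ∈ W, c x < k) (hn : ¬ Col G (insert v W) k)
    (hI : I.Nonempty) (hIk : I ⊆ Finset.range k) : (Ess G v W c I).Nonempty := by
  obtain ⟨K, hK, _⟩ := split (G := G) (J := Finset.range k) (X := W) hvW hc hIk hI
    (fun x hx => ⟨hx, Finset.mem_range.2 (hk x hx)⟩)
    (fun x _ hxI y hy => (cmp_sub hxI hy).1) (by rw [Finset.card_range]; exact hn)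
  exact ⟨K, hK⟩

theorem ess_exists_adj (hc : ∀ x ∈ W, ∀ y ∈ W, G.Adj x y → c x ≠ c y)
    (hI : I.Nonempty) {K : Set V} (hK : K ∈ Ess G v W c I) : ∃ x ∈ K, G.Adj v x := by
  classical
  by_contra hcon
  push Not at hcon
  apply hK.2
  have hI' : 0 < I.card := Finset.card_pos.2 hI
  refine ⟨fun y => if y = v then 0 else rk I (c y), ?_, ?_⟩
  · intro y hy
    by_cases hyv : y = v
    · simp only [hyv, if_true]; exact hI'
    · simp only [hyv, if_false]
      rcases hy with h | h
      · exact absurd h hyv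
      · exact rk_lt_card (ess_sub hK h).2
  · intro y hy z hz hyz
    by_cases hyv : y = v
    · subst hyv
      rcases hz with h | h
      · rw [h] at hyz; exact absurd hyz (G.loopless.irrefl _)
      · exact absurd hyz (hcon z h)
    · by_cases hzv : z = v
      · subst hzv
        rcases hy with h | h
        · exact absurd h hyv
        · exact absurd hyz.symm (hcon y h)
      · simp only [hyv, hzv, if_false]
        rcases hy with h | h
        · exact absurd h hyv
        · rcases hz with h' | h'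
          · exact absurd h' hzv
          · have h1 := ess_sub hK h
            have h2 := ess_sub hK h'
            exact rk_ne h1.2 h2.2 (hc y h1.1 z h2.1 hyz)

theorem ess_single (hc : ∀ x ∈ W, ∀ y ∈ W, G.Adj x y → c x ≠ c y) {i : ℕ} {K : Set V}
    (hK : K ∈ Ess G v W c {i}) : ∃ x, x ∈ W ∧ c x = i ∧ G.Adj v x ∧ K = {x} := by
  obtain ⟨x, hx, hadj⟩ := ess_exists_adj hc ⟨i, Finset.mem_singleton_self i⟩ hK
  have h1 := ess_sub hK hx
  refine ⟨x, h1.1, Finset.mem_singleton.1 h1.2, hadj, ?_⟩
  rw [ess_eq_cmp hK hx]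
  ext y
  constructor
  · intro hy
    rw [mem_cmp] at hy
    obtain ⟨w⟩ := hy
    cases w with
    | nil => rfl
    | cons h _ =>
      exfalso
      have h2 := h.2.1
      have h3 := h.2.2
      exact hc _ h2.1 _ h3.1 h.1 ((Finset.mem_singleton.1 h2.2).trans (Finset.mem_singleton.1 h3.2).symm)
  · intro hy
    rw [Set.mem_singleton_iff] at hy
    rw [hy]
    exact self_mem_cmp

theorem connected_cmp : (G.induce (cmp G W c I x)).Connected := by
  have h1 : ((GI G W c I).induce (cmp G W c I x)).Connected :=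
    ((GI G W c I).connectedComponentMk x).connected_toSimpleGraph
  refine h1.mono ?_
  intro y z hyz
  exact hyz.1

end PSch46
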