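import Pool.Agent.W_a862e4_h46.Basic

namespace PSch46

open SimpleGraph

variable {V : Type*} [Finite V] {G : SimpleGraph V} {W : Set V} {c : V → ℕ} {I J : Finset ℕ} {v : V}

variable (G W c v) in
/-- number of essential components -/
noncomputable def e (I : Finset ℕ) : ℕ := (Ess G v W c I).ncard

theorem ess_finite (I : Finset ℕ) : (Ess G v W c I).Finite := Set.toFinite _

theorem choice (hvW : v ∉ W) (hc : ∀ x ∈ W, ∀ y ∈ W, G.Adj x y → c x ≠ c y) (hIJ : I ⊆ J)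
    (hI : I.Nonempty) : ∃ f : Set V → Set V, (∀ K ∈ Ess G v W c J, f K ∈ Ess G v W c I ∧ f K ⊆ K) ∧
      Set.InjOn f (Ess G v W c J) := by
  classical
  have h : ∀ K : Set V, ∃ K' : Set V, K ∈ Ess G v W c J → (K' ∈ Ess G v W c I ∧ K' ⊆ K) := by
    intro K
    by_cases hK : K ∈ Ess G v W c J
    · obtain ⟨K', h1, h2⟩ := ess_exists_sub hvW hc hIJ hI hK
      exact ⟨K', fun _ => ⟨h1, h2⟩⟩
    · exact ⟨∅, fun h => absurd h hK⟩
  choose f hf using h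
  refine ⟨f, hf, ?_⟩
  intro K1 h1 K2 h2 heq
  obtain ⟨x, hx⟩ := ess_nonempty (hf K1 h1).1
  exact ess_eq_of_inter h1 h2 ((hf K1 h1).2 hx) ((hf K2 h2).2 (heq ▸ hx))

theorem e_mono (hvW : v ∉ W) (hc : ∀ x ∈ W, ∀ y ∈ W, G.Adj x y → c x ≠ c y) (hIJ : I ⊆ J)
    (hI : I.Nonempty) : e G W c v J ≤ e G W c v I := by
  obtain ⟨f, hf, hinj⟩ := choice hvW hc hIJ hI
  exact Set.ncard_le_ncard_of_injOn f (fun K hK => (hf K hK).1) hinj (ess_finite I)

theorem sup_of_eq (hvW : v ∉ W) (hc : ∀ x ∈ W, ∀ y ∈ W, G.Adj x y → c x ≠ c y) (hIJ : I ⊆ J)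
    (hI : I.Nonempty) (he : e G W c v J = e G W c v I) {K' : Set V} (hK' : K' ∈ Ess G v W c I) :
    ∃ K ∈ Ess G v W c J, K' ⊆ K := by
  obtain ⟨f, hf, hinj⟩ := choice hvW hc hIJ hI
  have himg : f '' (Ess G v W c J) = Ess G v W c I := by
    apply Set.eq_of_subset_of_ncard_le
    · rintro _ ⟨K, hK, rfl⟩
      exact (hf K hK).1
    · rw [Set.ncard_image_of_injOn hinj]
      exact he.ge
    · exact ess_finite I
  rw [← himg] at hK'
  obtain ⟨K, hK, rfl⟩ := hK'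
  exact ⟨K, hK, (hf K hK).2⟩

theorem unique_of_eq (hvW : v ∉ W) (hc : ∀ x ∈ W, ∀ y ∈ W, G.Adj x y → c x ≠ c y) (hIJ : I ⊆ J)
    (hI : I.Nonempty) (he : e G W c v J = e G W c v I) {K K1 K2 : Set V}
    (hK : K ∈ Ess G v W c J) (h1 : K1 ∈ Ess G v W c I) (h2 : K2 ∈ Ess G v W c I)
    (hs1 : K1 ⊆ K) (hs2 : K2 ⊆ K) : K1 = K2 := by
  obtain ⟨f, hf, hinj⟩ := choice hvW hc hIJ hI
  have himg : f '' (Ess G v W c J) = Ess G v W c I := by
    apply Set.eq_of_subset_of_ncard_le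
    · rintro _ ⟨K, hK, rfl⟩
      exact (hf K hK).1
    · rw [Set.ncard_image_of_injOn hinj]
      exact he.ge
    · exact ess_finite I
  have key : ∀ K1 ∈ Ess G v W c I, K1 ⊆ K → K1 = f K := by
    intro K1 h1 hs1
    have h1' := h1
    rw [← himg] at h1'
    obtain ⟨L, hL, hLeq⟩ := h1'
    obtain ⟨x, hx⟩ := ess_nonempty h1
    have hxL : x ∈ L := by
      apply (hf L hL).2
      rw [hLeq]
      exact hx
    have : L = K := ess_eq_of_inter hL hK hxL (hs1 hx)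
    rw [← hLeq, this]
  rw [key K1 h1 hs1, key K2 h2 hs2]

/-- A family of colour blocks with representatives which are pairwise connected. -/
def Good (G : SimpleGraph V) (W : Set V) (c : V → ℕ) (v : V) (F : Finset (Finset ℕ)) : Prop :=
  ∃ K : Finset ℕ → Set V, (∀ I ∈ F, K I ∈ Ess G v W c I) ∧
    ∀ I ∈ F, ∀ J ∈ F, I ≠ J → ∃ M ∈ Ess G v W c (I ∪ J), K I ⊆ M ∧ K J ⊆ M

theorem good_of_const (hvW : v ∉ W) (hc : ∀ x ∈ W, ∀ y ∈ W, G.Adj x y → c x ≠ c y)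
    (F : Finset (Finset ℕ)) (hne : ∀ I ∈ F, I.Nonempty) (n : ℕ) (hn : 0 < n)
    (h1 : ∀ I ∈ F, e G W c v I = n) (h2 : ∀ I ∈ F, ∀ J ∈ F, e G W c v (I ∪ J) = n)
    (h3 : ∀ I ∈ F, ∀ J ∈ F, ∀ L ∈ F, e G W c v (I ∪ J ∪ L) = n) : Good G W c v F := by
  classical
  rcases F.eq_empty_or_nonempty with hF | ⟨I0, hI0⟩
  · subst hF
    exact ⟨fun _ => ∅, fun I hI => absurd hI (Finset.notMem_empty I),
      fun I hI => absurd hI (Finset.notMem_empty I)⟩
  have hK0 : (Ess G v W c I0).Nonempty := by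
    have h : 0 < (Ess G v W c I0).ncard := by
      have := h1 I0 hI0
      unfold e at this
      omega
    exact (Set.ncard_pos (ess_finite I0)).1 h
  obtain ⟨K0, hK0⟩ := hK0
  -- representatives
  have hrep : ∀ J : Finset ℕ, ∃ K M : Set V, J ∈ F → (K ∈ Ess G v W c J ∧
      M ∈ Ess G v W c (I0 ∪ J) ∧ K0 ⊆ M ∧ K ⊆ M) := by
    intro J
    by_cases hJ : J ∈ F
    · obtain ⟨M, hM, hK0M⟩ := sup_of_eq hvW hc (J := I0 ∪ J) Finset.subset_union_left (hne I0 hI0)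
        ((h2 I0 hI0 J hJ).trans (h1 I0 hI0).symm) hK0
      obtain ⟨K, hK, hKM⟩ := ess_exists_sub hvW hc (J := I0 ∪ J) Finset.subset_union_right (hne J hJ) hM
      exact ⟨K, M, fun _ => ⟨hK, hM, hK0M, hKM⟩⟩
    · exact ⟨∅, ∅, fun h => absurd h hJ⟩
  choose K M hKM using hrep
  refine ⟨K, fun I hI => (hKM I hI).1, ?_⟩
  intro A hA B hB hAB
  have hT := h3 I0 hI0 A hA B hB
  obtain ⟨Q, hQ, hK0Q⟩ := sup_of_eq hvW hc (J := I0 ∪ A ∪ B)
    (Finset.subset_union_left.trans Finset.subset_union_left) (hne I0 hI0)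
    (hT.trans (h1 I0 hI0).symm) hK0
  obtain ⟨x0, hx0⟩ := ess_nonempty hK0
  -- M A ⊆ Q
  have hMA : M A ⊆ Q := by
    obtain ⟨Q', hQ', hs⟩ := sup_of_eq hvW hc (I := I0 ∪ A) (J := I0 ∪ A ∪ B)
      Finset.subset_union_left ((hne I0 hI0).mono Finset.subset_union_left)
      (hT.trans (h2 I0 hI0 A hA).symm) (hKM A hA).2.1
    have : Q' = Q := ess_eq_of_inter hQ' hQ (hs ((hKM A hA).2.2.1 hx0)) (hK0Q hx0)
    rw [← this]; exact hs
  have hMB : M B ⊆ Q := by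
    obtain ⟨Q', hQ', hs⟩ := sup_of_eq hvW hc (I := I0 ∪ B) (J := I0 ∪ A ∪ B)
      (by
        intro i hi
        simp only [Finset.mem_union] at hi ⊢
        tauto) ((hne I0 hI0).mono Finset.subset_union_left)
      (hT.trans (h2 I0 hI0 B hB).symm) (hKM B hB).2.1
    have : Q' = Q := ess_eq_of_inter hQ' hQ (hs ((hKM B hB).2.2.1 hx0)) (hK0Q hx0)
    rw [← this]; exact hs
  -- the component of A ∪ B
  obtain ⟨N, hN, hAN⟩ := sup_of_eq hvW hc (I := A) (J := A ∪ B) Finset.subset_union_left (hne A hA)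
    ((h2 A hA B hB).trans (h1 A hA).symm) (hKM A hA).1
  refine ⟨N, hN, hAN, ?_⟩
  have hNQ : N ⊆ Q := by
    obtain ⟨Q', hQ', hs⟩ := sup_of_eq hvW hc (I := A ∪ B) (J := I0 ∪ A ∪ B)
      (by
        intro i hi
        simp only [Finset.mem_union] at hi ⊢
        tauto) ((hne A hA).mono Finset.subset_union_left)
      (hT.trans (h2 A hA B hB).symm) hN
    obtain ⟨x, hx⟩ := ess_nonempty (hKM A hA).1
    have : Q' = Q := ess_eq_of_inter hQ' hQ (hs (hAN hx)) (hMA ((hKM A hA).2.2.2 hx))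
    rw [← this]; exact hs
  obtain ⟨KB, hKB, hKBN⟩ := ess_exists_sub hvW hc (I := B) (J := A ∪ B) Finset.subset_union_right
    (hne B hB) hN
  have : KB = K B := unique_of_eq hvW hc (I := B) (J := I0 ∪ A ∪ B) Finset.subset_union_right
    (hne B hB) (hT.trans (h1 B hB).symm) hQ hKB (hKM B hB).1 (hKBN.trans hNQ)
    ((hKM B hB).2.2.2.trans hMB)
  rw [← this]
  exact hKBN

end PSch46
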