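import Pool.Agent.W_a862e4_h46.Ind

namespace PSch46

open SimpleGraph

/-- `G` has a `p`-scheme (word for word as in the frozen statement S10651) -/
def HasScheme {V : Type*} (G : SimpleGraph V) (p : ℕ) : Prop :=
  ∃ v : Fin p → V, Function.Injective v ∧
    ∃ C : Fin p → Fin p → Set V,
      (∀ i j, C i j = C j i) ∧
      (∀ i j, i ≠ j → v i ∈ C i j ∧ v j ∈ C i j ∧ (G.induce (C i j)).Connected) ∧
      (∀ i j k l, i ≠ j → i ≠ k → i ≠ l → j ≠ k → j ≠ l → k ≠ l →
        Disjoint (C i j) (C k l))

variable {V : Type*} {G : SimpleGraph V}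

theorem scheme_of_good [Finite V] {W : Set V} {c : V → ℕ} {v : V} (hvW : v ∉ W)
    (hc : ∀ x ∈ W, ∀ y ∈ W, G.Adj x y → c x ≠ c y) {k : ℕ} {F : Finset (Finset ℕ)}
    (hF : Fam k F) (hG : Good G W c v F) (m : ℕ) (hm : m ≤ F.card) : HasScheme G (m + 1) := by
  classical
  obtain ⟨F1, hF1, hcard⟩ := Finset.exists_subset_card_eq hm
  obtain ⟨K, hK1, hK2⟩ := hG
  let g : Fin m → Finset ℕ := fun a => ((F1.equivFinOfCardEq hcard).symm a : Finset ℕ)
  have hgF : ∀ a, g a ∈ F := fun a => hF1 ((F1.equivFinOfCardEq hcard).symm a).2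
  have hginj : Function.Injective g := by
    intro a b hab
    exact (F1.equivFinOfCardEq hcard).symm.injective (Subtype.ext hab)
  have hx : ∀ a : Fin m, ∃ x ∈ K (g a), G.Adj v x := fun a =>
    ess_exists_adj hc (hF.ne _ (hgF a)) (hK1 _ (hgF a))
  choose x hxK hxadj using hx
  have hxcls : ∀ a, x a ∈ cls W c (g a) := fun a => ess_sub (hK1 _ (hgF a)) (hxK a)
  have hgdisj : ∀ a b, a ≠ b → Disjoint (g a) (g b) := fun a b hab =>
    hF.disj _ (hgF a) _ (hgF b) (fun h => hab (hginj h))
  have hpair : ∀ a b, a ≠ b → x b ∈ cmp G W c (g a ∪ g b) (x a) := by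
    intro a b hab
    obtain ⟨M, hM, h1, h2⟩ := hK2 _ (hgF a) _ (hgF b) (fun h => hab (hginj h))
    rw [← ess_eq_cmp hM (h1 (hxK a))]
    exact h2 (hxK b)
  have hsubcls : ∀ a b, cmp G W c (g a ∪ g b) (x a) ⊆ cls W c (g a ∪ g b) := fun a b =>
    cmp_sub (cls_mono Finset.subset_union_left (hxcls a))
  let vv : Fin (m + 1) → V := Fin.cons v x
  let CC : Fin (m + 1) → Fin (m + 1) → Set V := fun i j =>
    Fin.cases (Fin.cases ∅ (fun b => {v, x b}) j)
      (fun a => Fin.cases {v, x a} (fun b => cmp G W c (g a ∪ g b) (x a)) j) i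
  have hC00 : CC 0 0 = ∅ := rfl
  have hC0s : ∀ b : Fin m, CC 0 b.succ = {v, x b} := fun b => rfl
  have hCs0 : ∀ a : Fin m, CC a.succ 0 = {v, x a} := fun a => rfl
  have hCss : ∀ a b : Fin m, CC a.succ b.succ = cmp G W c (g a ∪ g b) (x a) := fun a b => rfl
  have hsymm : ∀ i j, CC i j = CC j i := by
    intro i j
    refine Fin.cases ?_ (fun a => ?_) i
    · refine Fin.cases rfl (fun b => ?_) j
      rw [hC0s, hCs0]
    · refine Fin.cases ?_ (fun b => ?_) j
      · rw [hCs0, hC0s]
      · rw [hCss, hCss]
        by_cases hab : a = b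
        · rw [hab]
        · have h1 := hpair a b hab
          rw [← cmp_eq_of_mem h1, Finset.union_comm]
  have hx_notin : ∀ a b d : Fin m, a ≠ b → a ≠ d → x a ∉ cmp G W c (g b ∪ g d) (x b) := by
    intro a b d hab had hmem
    have h1 := (hsubcls b d hmem).2
    have h2 := (hxcls a).2
    rcases Finset.mem_union.1 h1 with h | h
    · exact Finset.disjoint_left.1 (hgdisj a b hab) h2 h
    · exact Finset.disjoint_left.1 (hgdisj a d had) h2 h
  have hstar : ∀ a b d : Fin m, a ≠ b → a ≠ d →
      Disjoint ({v, x a} : Set V) (cmp G W c (g b ∪ g d) (x b)) := by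
    intro a b d hab had
    rw [Set.disjoint_left]
    intro y hy hy'
    rcases hy with h | h
    · exact hvW (h ▸ (hsubcls b d hy').1)
    · rw [Set.mem_singleton_iff] at h
      exact hx_notin a b d hab had (h ▸ hy')
  refine ⟨vv, ?_, CC, hsymm, ?_, ?_⟩
  · intro i j
    refine Fin.cases ?_ (fun a => ?_) i
    · refine Fin.cases (fun _ => rfl) (fun b => ?_) j
      intro h
      have h' : v = x b := h
      exact absurd (h' ▸ (hxcls b).1) hvW
    · refine Fin.cases ?_ (fun b => ?_) j
      · intro h
        have h' : x a = v := h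
        exact absurd (h' ▸ (hxcls a).1) hvW
      · intro h
        have h' : x a = x b := h
        by_contra hne
        have hab : a ≠ b := fun h => hne (by rw [h])
        exact Finset.disjoint_left.1 (hgdisj a b hab) (hxcls a).2 (h' ▸ (hxcls b).2)
  · intro i j
    refine Fin.cases ?_ (fun a => ?_) i
    · refine Fin.cases (fun h => absurd rfl h) (fun b => ?_) j
      intro _
      rw [hC0s]
      refine ⟨Set.mem_insert _ _, Set.mem_insert_of_mem _ rfl, ?_⟩
      exact induce_pair_connected_of_adj (hxadj b)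
    · refine Fin.cases ?_ (fun b => ?_) j
      · intro _
        rw [hCs0]
        refine ⟨Set.mem_insert_of_mem _ rfl, Set.mem_insert _ _, ?_⟩
        exact induce_pair_connected_of_adj (hxadj a)
      · intro hab
        have hab' : a ≠ b := fun h => hab (by rw [h])
        rw [hCss]
        exact ⟨self_mem_cmp, hpair a b hab', connected_cmp⟩
  · intro i j k' l
    refine Fin.cases ?_ (fun a => ?_) i
    · refine Fin.cases (fun h => absurd rfl h) (fun b => ?_) j
      refine Fin.cases (fun _ h => absurd rfl h) (fun d => ?_) k'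
      refine Fin.cases (fun _ _ h => absurd rfl h) (fun f => ?_) l
      intro _ _ _ hbd hbf _
      rw [hC0s, hCss]
      exact hstar b d f (fun h => hbd (by rw [h])) (fun h => hbf (by rw [h]))
    · refine Fin.cases ?_ (fun b => ?_) j
      · refine Fin.cases (fun _ _ _ h => absurd rfl h) (fun d => ?_) k'
        refine Fin.cases (fun _ _ _ _ h => absurd rfl h) (fun f => ?_) l
        intro _ had haf _ _ _
        rw [hCs0, hCss]
        exact hstar a d f (fun h => had (by rw [h])) (fun h => haf (by rw [h]))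
      · refine Fin.cases ?_ (fun d => ?_) k'
        · refine Fin.cases (fun _ _ _ _ _ h => absurd rfl h) (fun f => ?_) l
          intro _ _ haf _ hbf _
          rw [hC0s, hCss]
          exact (hstar f a b (fun h => haf (by rw [h])) (fun h => hbf (by rw [h]))).symm
        · refine Fin.cases ?_ (fun f => ?_) l
          · intro _ had _ hbd _ _
            rw [hCs0, hCss]
            exact (hstar d a b (fun h => had (by rw [h])) (fun h => hbd (by rw [h]))).symm
          · intro _ had haf hbd hbf _
            rw [hCss, hCss, Set.disjoint_left]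
            intro y hy hy'
            have h1 := (hsubcls a b hy).2
            have h2 := (hsubcls d f hy').2
            have hd1 : Disjoint (g a) (g d) := hgdisj a d (fun h => had (by rw [h]))
            have hd2 : Disjoint (g a) (g f) := hgdisj a f (fun h => haf (by rw [h]))
            have hd3 : Disjoint (g b) (g d) := hgdisj b d (fun h => hbd (by rw [h]))
            have hd4 : Disjoint (g b) (g f) := hgdisj b f (fun h => hbf (by rw [h]))
            rcases Finset.mem_union.1 h1 with h | h <;> rcases Finset.mem_union.1 h2 with h' | h'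
            · exact Finset.disjoint_left.1 hd1 h h'
            · exact Finset.disjoint_left.1 hd2 h h'
            · exact Finset.disjoint_left.1 hd3 h h'
            · exact Finset.disjoint_left.1 hd4 h h'

theorem colorable_of_col {m : ℕ} (h : Col G Set.univ m) : G.Colorable m := by
  obtain ⟨c, h1, h2⟩ := h
  refine ⟨Coloring.mk (fun x => (⟨c x, h1 x (Set.mem_univ x)⟩ : Fin m)) ?_⟩
  intro x y hxy heq
  exact h2 x (Set.mem_univ x) y (Set.mem_univ y) hxy (congrArg Fin.val heq)

/-- counting colours with few neighbours -/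
theorem count_colours (k1 n D : ℕ) (N : ℕ → ℕ) (h1 : ∀ i ∈ Finset.range k1, 1 ≤ N i)
    (hs : ∑ i ∈ Finset.range k1, N i ≤ D) :
    (n + 1) * k1 ≤ D + n * ((Finset.range k1).filter (fun i => N i ≤ n)).card := by
  classical
  set q := ((Finset.range k1).filter (fun i => N i ≤ n)).card with hq
  have hpt : ∀ i ∈ Finset.range k1, (n + 1) ≤ N i + (if N i ≤ n then n else 0) := by
    intro i hi
    have := h1 i hi
    split_ifs with h <;> omega
  have hsum : k1 * (n + 1) ≤ ∑ i ∈ Finset.range k1, N i +
      ∑ i ∈ Finset.range k1, (if N i ≤ n then n else 0) := by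
    rw [← Finset.sum_add_distrib]
    calc k1 * (n + 1) = ∑ i ∈ Finset.range k1, (n + 1) := by
          rw [Finset.sum_const, Finset.card_range, smul_eq_mul]
      _ ≤ _ := Finset.sum_le_sum hpt
  have h2 : ∑ i ∈ Finset.range k1, (if N i ≤ n then n else 0) = n * q := by
    rw [← Finset.sum_filter, Finset.sum_const, smul_eq_mul, mul_comm]
  rw [h2] at hsum
  calc (n + 1) * k1 = k1 * (n + 1) := mul_comm _ _
    _ ≤ _ := by omega

theorem final {V : Type*} [Fintype V] (G : SimpleGraph V) (k D n : ℕ)
    (hk : G.chromaticNumber = (k : ℕ∞)) (hk1 : 1 ≤ k) (hn : 1 ≤ n)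
    (hD : ∀ S : Set V, S.Nonempty → ∃ x ∈ S, {y | y ∈ S ∧ G.Adj x y}.ncard ≤ D) :
    ∃ p : ℕ, 1 ≤ p ∧ 2 * ((n + 1) * (k - 1)) ≤ 2 * D + n * (3 ^ n - 1) * (p - 1) ∧
      HasScheme G p := by
  classical
  obtain ⟨k1, rfl⟩ : ∃ k1, k = k1 + 1 := ⟨k - 1, by omega⟩
  have hncol : ¬ G.Colorable k1 := by
    intro h
    have := h.chromaticNumber_le
    rw [hk] at this
    have h2 : k1 + 1 ≤ k1 := by exact_mod_cast this
    omega
  -- a minimal subset which is not `k1`-colourable
  let 𝒮 : Finset (Finset V) := Finset.univ.powerset.filter (fun S => ¬ Col G (S : Set V) k1)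
  have h𝒮 : 𝒮.Nonempty := ⟨Finset.univ, by
    simp only [𝒮, Finset.mem_filter, Finset.mem_powerset]
    refine ⟨Finset.Subset.refl _, ?_⟩
    rw [Finset.coe_univ]
    exact fun h => hncol (colorable_of_col h)⟩
  obtain ⟨S, hS, hmin⟩ := Finset.exists_min_image 𝒮 Finset.card h𝒮
  have hSn : ¬ Col G (S : Set V) k1 := (Finset.mem_filter.1 hS).2
  have hSne : S.Nonempty := by
    rw [Finset.nonempty_iff_ne_empty]
    rintro rfl
    apply hSn
    exact ⟨fun _ => 0, by simp, by simp⟩
  obtain ⟨v, hvS, hdeg⟩ := hD (S : Set V) (by exact_mod_cast hSne)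
  have hvS' : v ∈ S := by exact_mod_cast hvS
  have hcol : Col G ((S.erase v : Finset V) : Set V) k1 := by
    by_contra hcon
    have hmem : S.erase v ∈ 𝒮 := by
      simp only [𝒮, Finset.mem_filter, Finset.mem_powerset]
      exact ⟨Finset.subset_univ _, hcon⟩
    have h1 := hmin _ hmem
    have h2 := Finset.card_erase_lt_of_mem hvS'
    omega
  obtain ⟨c, hc1, hc2⟩ := hcol
  set W : Set V := ((S.erase v : Finset V) : Set V) with hW
  have hvW : v ∉ W := by simp [hW]
  have hins : insert v W = (S : Set V) := by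
    rw [hW, ← Finset.coe_insert, Finset.insert_erase hvS']
  have hn' : ¬ Col G (insert v W) k1 := by rw [hins]; exact hSn
  -- neighbours of colour i
  let N : ℕ → ℕ := fun i => ((S.filter (fun y => G.Adj v y)).filter (fun y => c y = i)).card
  have heN : ∀ i, e G W c v {i} ≤ N i := by
    intro i
    have hsub : Ess G v W c {i} ⊆
        (fun x => ({x} : Set V)) '' (((S.filter (fun y => G.Adj v y)).filter (fun y => c y = i) :
          Finset V) : Set V) := by
      intro K hK
      obtain ⟨x, hxW, hxc, hxadj, rfl⟩ := ess_single hc2 hK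
      refine ⟨x, ?_, rfl⟩
      have hxS : x ∈ S := Finset.mem_of_mem_erase (by exact_mod_cast hxW)
      exact_mod_cast Finset.mem_filter.2 ⟨Finset.mem_filter.2 ⟨hxS, hxadj⟩, hxc⟩
    calc e G W c v {i} ≤ _ := Set.ncard_le_ncard hsub (Set.toFinite _)
      _ ≤ _ := Set.ncard_image_le (Set.toFinite _)
      _ = N i := Set.ncard_coe_finset _
  have hNpos : ∀ i ∈ Finset.range k1, 1 ≤ N i := by
    intro i hi
    have h2 : (Ess G v W c {i}).Nonempty :=
      ess_exists_of_not_col hvW hc2 (fun x hx => hc1 x hx) hn' ⟨i, by simp⟩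
        (by simpa using hi)
    have h3 : 0 < (Ess G v W c {i}).ncard := (Set.ncard_pos (ess_finite _)).2 h2
    have h4 := heN i
    unfold e at h4
    omega
  have hNsum : ∑ i ∈ Finset.range k1, N i ≤ D := by
    have h1 : (S.filter (fun y => G.Adj v y)).card = ∑ i ∈ Finset.range k1, N i := by
      apply Finset.card_eq_sum_card_fiberwise
      intro y hy
      have hy' := Finset.mem_filter.1 (Finset.mem_coe.1 hy)
      have hyv : y ≠ v := fun h => G.loopless.irrefl v (h ▸ hy'.2)
      have : y ∈ W := by
        rw [hW]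
        exact_mod_cast Finset.mem_erase.2 ⟨hyv, hy'.1⟩
      exact Finset.mem_coe.2 (Finset.mem_range.2 (hc1 y this))
    rw [← h1]
    have h2 : {y | y ∈ (S : Set V) ∧ G.Adj v y} = ((S.filter (fun y => G.Adj v y) : Finset V) : Set V) := by
      ext y
      simp
    rw [h2, Set.ncard_coe_finset] at hdeg
    exact hdeg
  have hcount := count_colours k1 n D N hNpos hNsum
  set R := (Finset.range k1).filter (fun i => N i ≤ n) with hR
  have ha : 1 ≤ a n := by
    obtain ⟨n', rfl⟩ : ∃ n', n = n' + 1 := ⟨n - 1, by omega⟩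
    have : a (n' + 1) = 3 * a n' + 1 := rfl
    omega
  have h2a := two_mul_a n
  rcases Nat.eq_zero_or_pos R.card with hR0 | hRpos
  · -- trivial scheme
    refine ⟨1, le_rfl, ?_, ?_⟩
    · rw [hR0] at hcount
      simp only [Nat.add_sub_cancel, Nat.sub_self, mul_zero, add_zero] at hcount ⊢
      omega
    · refine ⟨fun _ => v, fun i j _ => Subsingleton.elim _ _, fun _ _ => ∅, fun _ _ => rfl,
        fun i j h => absurd (Subsingleton.elim i j) h,
        fun i j _ _ h => absurd (Subsingleton.elim i j) h⟩
  · -- the family of single colours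
    set F : Finset (Finset ℕ) := R.image (fun i => ({i} : Finset ℕ)) with hFdef
    have hFcard : F.card = R.card :=
      Finset.card_image_of_injective _ Finset.singleton_injective
    have hFam : Fam k1 F := by
      refine ⟨?_, ?_, ?_⟩
      · intro I hI
        obtain ⟨i, _, rfl⟩ := Finset.mem_image.1 hI
        exact Finset.singleton_nonempty i
      · intro I hI
        obtain ⟨i, hi, rfl⟩ := Finset.mem_image.1 hI
        rw [Finset.singleton_subset_iff]
        exact (Finset.mem_filter.1 hi).1
      · intro I hI J hJ hne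
        obtain ⟨i, _, rfl⟩ := Finset.mem_image.1 hI
        obtain ⟨j, _, rfl⟩ := Finset.mem_image.1 hJ
        rw [Finset.disjoint_singleton]
        rintro rfl
        exact hne rfl
    have hFe : ∀ I ∈ F, e G W c v I ≤ n := by
      intro I hI
      obtain ⟨i, hi, rfl⟩ := Finset.mem_image.1 hI
      exact le_trans (heN i) (Finset.mem_filter.1 hi).2
    set P := (R.card - 1) / a n with hP
    have hPle : a n * P + 1 ≤ F.card := by
      rw [hFcard]
      have h := Nat.mul_div_le (R.card - 1) (a n)
      rw [← hP] at h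
      omega
    have hPge : R.card ≤ a n * (P + 1) := by
      have h1 := Nat.lt_mul_div_succ (R.card - 1) (show 0 < a n by omega)
      rw [← hP] at h1
      omega
    obtain ⟨F', hF'card, hFam', hGood⟩ :=
      main_ind hvW hc2 (fun x hx => hc1 x hx) hn' n F hFam hFe P hPle
    refine ⟨P + 1 + 1, Nat.le_add_left 1 _, ?_, scheme_of_good hvW hc2 hFam' hGood (P + 1) hF'card⟩
    have h4 : 3 ^ n - 1 = 2 * a n := by omega
    rw [h4]
    simp only [Nat.add_sub_cancel]
    have h5 : n * R.card ≤ n * (a n * (P + 1)) := Nat.mul_le_mul_left n hPge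
    have h6 : n * (2 * a n) * (P + 1) = 2 * (n * (a n * (P + 1))) := by ring
    rw [h6]
    omega

end PSch46
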