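import Pool.Agent.W_a862e4_h46.Family

namespace PSch46

open SimpleGraph

/-- `a n = (3^n - 1)/2` -/
def a : ℕ → ℕ
  | 0 => 0
  | n + 1 => 3 * a n + 1

theorem two_mul_a (n : ℕ) : 2 * a n + 1 = 3 ^ n := by
  induction n with
  | zero => rfl
  | succ n ih =>
    have : a (n + 1) = 3 * a n + 1 := rfl
    rw [this, pow_succ]
    omega

/-- legal families of blocks -/
structure Fam (k : ℕ) (F : Finset (Finset ℕ)) : Prop where
  ne : ∀ I ∈ F, I.Nonempty
  sub : ∀ I ∈ F, I ⊆ Finset.range k
  disj : ∀ I ∈ F, ∀ J ∈ F, I ≠ J → Disjoint I J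

theorem Fam.mono {k : ℕ} {F F' : Finset (Finset ℕ)} (h : Fam k F) (hs : F' ⊆ F) : Fam k F' :=
  ⟨fun I hI => h.ne I (hs hI), fun I hI => h.sub I (hs hI),
    fun I hI J hJ => h.disj I (hs hI) J (hs hJ)⟩

variable {V : Type*} [Finite V] {G : SimpleGraph V} {W : Set V} {c : V → ℕ} {v : V}

theorem main_ind (hvW : v ∉ W) (hc : ∀ x ∈ W, ∀ y ∈ W, G.Adj x y → c x ≠ c y)
    {k : ℕ} (hk : ∀ x ∈ W, c x < k) (hncol : ¬ Col G (insert v W) k) (n : ℕ) :
    ∀ F : Finset (Finset ℕ), Fam k F → (∀ I ∈ F, e G W c v I ≤ n) →
      ∀ P : ℕ, a n * P + 1 ≤ F.card →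
        ∃ F' : Finset (Finset ℕ), P + 1 ≤ F'.card ∧ Fam k F' ∧ Good G W c v F' := by
  classical
  induction n with
  | zero =>
    intro F hF he P hP
    exfalso
    have hpos : 0 < F.card := by omega
    obtain ⟨I, hI⟩ := Finset.card_pos.1 hpos
    have h1 := he I hI
    have h2 : (Ess G v W c I).Nonempty :=
      ess_exists_of_not_col hvW hc hk hncol (hF.ne I hI) (hF.sub I hI)
    have h3 : 0 < (Ess G v W c I).ncard := (Set.ncard_pos (ess_finite I)).2 h2
    unfold e at h1
    omega
  | succ n ih =>
    intro F hF he P hP
    have ha : a (n + 1) = 3 * a n + 1 := rfl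
    let Bad : Finset (Finset ℕ) → Prop := fun t => t.Nonempty ∧ t.card ≤ 3 ∧
      e G W c v (t.sup id) < n + 1
    let C : Finset (Finset (Finset (Finset ℕ))) :=
      (F.powerset.filter Bad).powerset.filter
        (fun T => ∀ t ∈ T, ∀ t' ∈ T, t ≠ t' → Disjoint t t')
    have hCne : C.Nonempty := ⟨∅, by
      simp only [C, Finset.mem_filter, Finset.mem_powerset]
      exact ⟨Finset.empty_subset _, fun t ht => absurd ht (Finset.notMem_empty t)⟩⟩
    obtain ⟨T, hT, hmax⟩ := Finset.exists_max_image C Finset.card hCne
    have hT1 : T ⊆ F.powerset.filter Bad := Finset.mem_powerset.1 (Finset.mem_filter.1 hT).1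
    have hT2 := (Finset.mem_filter.1 hT).2
    have hTF : ∀ t ∈ T, t ⊆ F := fun t ht =>
      Finset.mem_powerset.1 (Finset.mem_filter.1 (hT1 ht)).1
    have hTB : ∀ t ∈ T, Bad t := fun t ht => (Finset.mem_filter.1 (hT1 ht)).2
    have hmem_sup : ∀ (t : Finset (Finset ℕ)) (i : ℕ), i ∈ t.sup id ↔ ∃ I ∈ t, i ∈ I := by
      intro t i
      rw [Finset.mem_sup]
      rfl
    rcases Nat.lt_or_ge (a n * P) T.card with hcase | hcase
    · -- many disjoint bad sets: pass to their unions
      have hdisj : ∀ t ∈ T, ∀ t' ∈ T, t ≠ t' → Disjoint (t.sup id) (t'.sup id) := by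
        intro t ht t' ht' hne
        rw [Finset.disjoint_left]
        intro i hi hi'
        obtain ⟨I, hI, hiI⟩ := (hmem_sup t i).1 hi
        obtain ⟨J, hJ, hiJ⟩ := (hmem_sup t' i).1 hi'
        have hIJ : I ≠ J := by
          rintro rfl
          exact Finset.disjoint_left.1 (hT2 t ht t' ht' hne) hI hJ
        exact Finset.disjoint_left.1 (hF.disj I (hTF t ht hI) J (hTF t' ht' hJ) hIJ) hiI hiJ
      have hsupne : ∀ t ∈ T, (t.sup id).Nonempty := by
        intro t ht
        obtain ⟨I, hI⟩ := (hTB t ht).1
        obtain ⟨i, hi⟩ := hF.ne I (hTF t ht hI)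
        exact ⟨i, (hmem_sup t i).2 ⟨I, hI, hi⟩⟩
      have hinj : Set.InjOn (fun t : Finset (Finset ℕ) => t.sup id) (T : Set (Finset (Finset ℕ))) := by
        intro t ht t' ht' heq
        by_contra hne
        have h1 := hdisj t ht t' ht' hne
        obtain ⟨i, hi⟩ := hsupne t ht
        have heq' : t.sup id = t'.sup id := heq
        exact Finset.disjoint_left.1 h1 hi (heq' ▸ hi)
      have hcard : (T.image (fun t => t.sup id)).card = T.card := Finset.card_image_of_injOn hinj
      apply ih (T.image (fun t => t.sup id))
      · refine ⟨?_, ?_, ?_⟩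
        · intro I hI
          obtain ⟨t, ht, rfl⟩ := Finset.mem_image.1 hI
          exact hsupne t ht
        · intro I hI
          obtain ⟨t, ht, rfl⟩ := Finset.mem_image.1 hI
          intro i hi
          obtain ⟨J, hJ, hiJ⟩ := (hmem_sup t i).1 hi
          exact hF.sub J (hTF t ht hJ) hiJ
        · intro I hI J hJ hne
          obtain ⟨t, ht, rfl⟩ := Finset.mem_image.1 hI
          obtain ⟨t', ht', rfl⟩ := Finset.mem_image.1 hJ
          apply hdisj t ht t' ht'
          rintro rfl
          exact hne rfl
      · intro I hI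
        obtain ⟨t, ht, rfl⟩ := Finset.mem_image.1 hI
        have := (hTB t ht).2.2
        omega
      · rw [hcard]; omega
    · -- few: the rest is constant
      let F' := F \ T.sup id
      have hF'sub : F' ⊆ F := Finset.sdiff_subset
      have hcardT : (T.sup id).card ≤ 3 * T.card := by
        have h1 : T.sup id = T.biUnion id := Finset.sup_eq_biUnion T id
        rw [h1]
        calc (T.biUnion id).card ≤ T.card * 3 :=
              Finset.card_biUnion_le_card_mul _ _ _ (fun t ht => (hTB t ht).2.1)
          _ = 3 * T.card := mul_comm _ _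
      have hcardF' : P + 1 ≤ F'.card := by
        have h1 : F.card - (T.sup id).card ≤ F'.card := Finset.le_card_sdiff _ _
        have h2 : 3 * T.card ≤ 3 * (a n * P) := Nat.mul_le_mul_left 3 hcase
        rw [ha] at hP
        have h3 : (3 * a n + 1) * P = 3 * (a n * P) + P := by ring
        omega
      have hnobad : ∀ t : Finset (Finset ℕ), t ⊆ F' → t.Nonempty → t.card ≤ 3 →
          n + 1 ≤ e G W c v (t.sup id) := by
        intro t htF' htne htc
        by_contra hlt
        push Not at hlt
        have hnotin : ∀ I ∈ t, ∀ t' ∈ T, I ∉ t' := by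
          intro I hI t' ht' hIt'
          have := Finset.mem_sdiff.1 (htF' hI)
          exact this.2 (Finset.mem_sup.2 ⟨t', ht', hIt'⟩)
        have htT : t ∉ T := by
          intro h
          obtain ⟨I, hI⟩ := htne
          exact hnotin I hI t h hI
        have hins : insert t T ∈ C := by
          simp only [C, Finset.mem_filter, Finset.mem_powerset]
          refine ⟨?_, ?_⟩
          · intro s hs
            rcases Finset.mem_insert.1 hs with rfl | hs
            · exact Finset.mem_filter.2 ⟨Finset.mem_powerset.2 (htF'.trans hF'sub), htne, htc, hlt⟩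
            · exact hT1 hs
          · intro s hs s' hs' hne
            rcases Finset.mem_insert.1 hs with h1 | h1
            · rcases Finset.mem_insert.1 hs' with h2 | h2
              · exact absurd (h1.trans h2.symm) hne
              · rw [h1]
                exact Finset.disjoint_left.2 (fun I hI => hnotin I hI s' h2)
            · rcases Finset.mem_insert.1 hs' with h2 | h2
              · rw [h2]
                exact Finset.disjoint_right.2 (fun I hI => hnotin I hI s h1)
              · exact hT2 s h1 s' h2 hne
        have h1 := hmax _ hins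
        rw [Finset.card_insert_of_notMem htT] at h1
        omega
      have hFam' := hF.mono hF'sub
      refine ⟨F', hcardF', hFam', ?_⟩
      have hmono : ∀ I ∈ F', ∀ J : Finset ℕ, I ⊆ J → e G W c v J ≤ n + 1 := by
        intro I hI J hIJ
        exact le_trans (e_mono hvW hc hIJ (hFam'.ne I hI)) (he I (hF'sub hI))
      apply good_of_const hvW hc F' hFam'.ne (n + 1) (by omega)
      · intro I hI
        apply le_antisymm (he I (hF'sub hI))
        have := hnobad {I} (by simpa using hI) ⟨I, by simp⟩ (by simp)
        simpa using this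
      · intro I hI J hJ
        apply le_antisymm (hmono I hI _ Finset.subset_union_left)
        have := hnobad {I, J} (by
          intro x hx
          simp only [Finset.mem_insert, Finset.mem_singleton] at hx
          rcases hx with rfl | rfl <;> assumption) ⟨I, by simp⟩
          (le_trans (Finset.card_insert_le _ _) (by simp))
        simpa using this
      · intro I hI J hJ L hL
        apply le_antisymm (hmono I hI _ (Finset.subset_union_left.trans Finset.subset_union_left))
        have := hnobad {I, J, L} (by
          intro x hx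
          simp only [Finset.mem_insert, Finset.mem_singleton] at hx
          rcases hx with rfl | rfl | rfl <;> assumption) ⟨I, by simp⟩
          (Finset.card_le_three)
        simpa [Finset.union_assoc] using this

end PSch46
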